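import Mathlib

/-!
# MP_f4b4d0_co, Q1: the Thue-Morse partition does not minimise the next power-sum defect

We disprove the statement: for `n = 7` there is a partition `{S, T}` of `{0, ..., 127}` with
property `P_7` whose defect is `-5551418880`, which is smaller in absolute value than the
defect `-10569646080` of the Thue-Morse partition.
-/

namespace Pool.Agent.Results.MP_f4b4d0_co.NotMinimal

/-- `{S, T}` is a partition of `{0, ..., 2^n - 1}` with the property `P_n`:
equal sums of `i`-th powers for all `0 ≤ i < n` (with `0 ^ 0 = 1`). -/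
def PropP (n : ℕ) (S T : Finset ℕ) : Prop :=
  Disjoint S T ∧ S ∪ T = Finset.range (2 ^ n) ∧
    ∀ i < n, ∑ s ∈ S, s ^ i = ∑ t ∈ T, t ^ i

/-- The defect `D(S, T) = ∑_{s ∈ S} s^n - ∑_{t ∈ T} t^n`. -/
def defect (n : ℕ) (S T : Finset ℕ) : ℤ :=
  ∑ s ∈ S, (s : ℤ) ^ n - ∑ t ∈ T, (t : ℤ) ^ n

/-- The Thue-Morse class: those `k < 2^n` whose binary digit sum has parity `b`. -/
def thueMorse (n b : ℕ) : Finset ℕ :=
  (Finset.range (2 ^ n)).filter fun k => (Nat.digits 2 k).sum % 2 = b

/-- The first class of the new partition of `{0, ..., 127}`. -/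
def newS : Finset ℕ :=
  {0, 4, 5, 7, 8, 10, 11, 13, 15, 16, 23, 25, 26, 29, 31, 32, 34, 35, 36, 37, 38, 40, 41, 43,
    46, 50, 52, 55, 58, 61, 64, 65, 67, 68, 70, 71, 73, 74, 76, 78, 79, 80, 82, 83, 85, 88, 94,
    97, 99, 100, 103, 105, 106, 107, 108, 109, 110, 113, 115, 118, 121, 124, 125, 126}

/-- The second class of the new partition of `{0, ..., 127}`. -/
def newT : Finset ℕ := Finset.range 128 \ newS

theorem newS_subset : newS ⊆ Finset.range 128 := by decide +kernel

theorem propP_new : PropP 7 newS newT := by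
  refine ⟨Finset.disjoint_sdiff, ?_, ?_⟩
  · exact Finset.union_sdiff_of_subset newS_subset
  · decide +kernel

theorem defect_new : defect 7 newS newT = -5551418880 := by decide +kernel

theorem defect_tm : defect 7 (thueMorse 7 0) (thueMorse 7 1) = -10569646080 := by
  decide +kernel

/-- **Negative answer to Q1.**  It is not true that for every `n ≥ 1` the minimum of `|D(S, T)|`
over all partitions `{S, T}` of `{0, ..., 2^n - 1}` with property `P_n` is attained by the
Thue-Morse partition: for `n = 7` some partition with property `P_7`, different from the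
Thue-Morse partition, has strictly smaller defect. -/
theorem result :
    ∃ n : ℕ, 1 ≤ n ∧ PropP n (thueMorse n 0) (thueMorse n 1) ∧
      ∃ S T : Finset ℕ, PropP n S T ∧
        ¬ (S = thueMorse n 0 ∧ T = thueMorse n 1) ∧
        ¬ (S = thueMorse n 1 ∧ T = thueMorse n 0) ∧
        |defect n S T| < |defect n (thueMorse n 0) (thueMorse n 1)| := by
  have hlt : |defect 7 newS newT| < |defect 7 (thueMorse 7 0) (thueMorse 7 1)| := by
    rw [defect_new, defect_tm]; norm_num
  refine ⟨7, by norm_num, ⟨?_, ?_, ?_⟩, newS, newT, propP_new, ?_, ?_, hlt⟩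
  · decide +kernel
  · decide +kernel
  · decide +kernel
  · rintro ⟨h1, h2⟩
    rw [h1, h2] at hlt
    exact lt_irrefl _ hlt
  · rintro ⟨h1, h2⟩
    rw [h1, h2] at hlt
    have : defect 7 (thueMorse 7 1) (thueMorse 7 0) =
        - defect 7 (thueMorse 7 0) (thueMorse 7 1) := by
      unfold defect; ring
    rw [this, abs_neg] at hlt
    exact lt_irrefl _ hlt

end Pool.Agent.Results.MP_f4b4d0_co.NotMinimal
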